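import Pool.Agent.Helper67.LCC.Chain

/-!
# The hardness criterion of promise problems for omega-categorical templates

`𝔸` is a countable omega-categorical structure with finitely many relations, for instance a reduct
of a homogeneous structure in a finite signature. It is not assumed to be a core.

(1) `𝔸` pp-constructs `K_3` if and only if its polymorphisms have a local chain selection: for some
finite set `S` of elements and numbers `B`, `ℓ`, each polymorphism gets a set of at most `B` of its
variables such that along every chain of `ℓ` minors with maps injective on the selected sets, where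
minors are compared only on `S`, some selected variable is mapped to a selected variable of a later
function of the chain.
(2) If `𝔸` pp-constructs a promise template `(𝔻, 𝕋)` with `𝔻` finite whose polymorphisms have a
chain selection (the layered hardness criterion of promise problems), then `𝔸` pp-constructs `K_3`.

Proof of (1).  The classes of the polymorphisms by the length of the longest bad chain which ends in
them are finitely many, and the union of the sets on such a chain is a bounded set of variables; for
two polymorphisms of the same class which have a minor in common on `S`, the sets meet if the map is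
injective on the first.  Suppose that for no finite `S'` there is a variable for each polymorphism
respecting the coincidences of minors on `S'`.  By compactness there is a finite set of coincidences
which is not respected by any choice of variables.  Compose an outer function with the functions of
this set.  Either some outer function gives, by the second coordinates of the selected variables, a
better selection on the finite set, or for each outer function some inner function fails; the first
coordinates then give a better selection for the outer functions.  So the number of candidates can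
be reduced to one, and the number of classes to one.
-/

set_option autoImplicit false

namespace Pool.Agent.Results.MP_6ab439_lc.LocalCriterion

open Set Pool.Agent.W994.AR Pool.Agent.Q112.BP Pool.Agent.Helper67.BEA Pool.Agent.Helper67.LCC

theorem result {A ι : Type} [Countable A] [Finite ι] {ar : ι → ℕ} (𝔸 : Str ι ar A)
    (hO : Oligo 𝔸) :
    -- (1) `K_3` and local chain selections
    (PPConstructsK3 𝔸 ↔ ∃ (S : Set A) (B ℓ : ℕ) (E : ∀ n : ℕ, ((Fin n → A) → A) → Finset (Fin n)),
      S.Finite ∧ ChainSelection (fun _ f => PolA 𝔸 f) S E B ℓ) ∧
    -- (2) promise templates whose polymorphisms have a chain selection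
    (∀ {J τ D C : Type} {arτ : τ → ℕ} [Finite J] [Finite D] (𝔻 : Str τ arτ D) (𝕋 : Str τ arτ C),
      (∃ (B ℓ : ℕ) (E : ∀ n : ℕ, ((Fin n → D) → C) → Finset (Fin n)),
        ChainSelection (fun _ t => PromisePol 𝔻 𝕋 t) Set.univ E B ℓ) →
      ∀ ℙ : Str τ arτ (J → A), (∀ i, PPDefPow 𝔸 (ℙ i)) →
        (∃ e, Hom 𝔻 ℙ e) → (∃ h, Hom ℙ 𝕋 h) → PPConstructsK3 𝔸) := by
  refine ⟨⟨?_, ?_⟩, ?_⟩
  · intro h
    obtain ⟨S, E, hS, hE⟩ := chainSelection_of_k3 h
    exact ⟨S, 1, 1, E, hS, hE⟩
  · rintro ⟨S, B, ℓ, E, hS, hE⟩
    obtain ⟨S', hS', hJ⟩ := ChainSelection.hasJ (Adm := Set.Finite)
      (fun t _ hS => img_finite t hS) hS hE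
    exact hJ.k3 hO hS'
  · rintro J τ D C arτ _ _ 𝔻 𝕋 ⟨B, ℓ, E, hE⟩ ℙ hℙ ⟨e, he⟩ ⟨h, hh⟩
    obtain ⟨S', hS', hJ⟩ := hasJ_of_promise hℙ he hh hE
    exact hJ.k3 hO hS'

end Pool.Agent.Results.MP_6ab439_lc.LocalCriterion
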