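import Pool.Agent.Helper67.LCC.Pseudo

/-!
# Olšák identities modulo finite colourings and oligomorphic groups

`𝔸` is a countable omega-categorical structure with finitely many relations, for instance a reduct
of a homogeneous structure in a finite signature. It is not assumed to be a core.

(1) `𝔸` does not pp-construct `K_3` if and only if its polymorphisms satisfy the Olšák identities
modulo finite colourings: for every colouring `χ` of a finite power of the domain with finitely many
colours and every finite set `S` there is a polymorphism `f` with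
`χ (f x y y y x x) = χ (f y x y x y x) = χ (f y y x x x y)` for all `x, y` in `S`.
(2) If `𝔸` does not pp-construct `K_3`, then for every oligomorphic group `Γ` of automorphisms there
are a polymorphism `f` and maps `α, β, γ` in the closure of `Γ` with
`α (f x y y y x x) = β (f y x y x y x) = γ (f y y x x x y)` for all `x, y`.
(3) If `𝔸` pp-constructs a finite promise template without Olšák polymorphism, then it pp-constructs
`K_3`.
(4) So it does if a relation of arity `r ≥ 3` on a finite power, pp-definable in `𝔸`, contains all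
non-constant tuples over two elements and has a finite colouring without monochromatic tuples.
(5) So it does if a graph on a finite power, pp-definable in `𝔸`, contains a `d`-clique, `d ≥ 3`, and
has a homomorphism to a finite graph without `2d`-clique.

Proof of (1).  Otherwise every polymorphism gives a colouring of a cube such that no three points
which differ everywhere (not all equal in each coordinate) have the same colour.  Select the domain
of a small partial assignment whose extensions have few colours; two such assignments with the same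
set of colours overlap, by Tucker's lemma.  The local chain criterion turns this selection into a
selection of one variable for each polymorphism which respects all coincidences of minors on a
finite set.  For (5), a polymorphism with the Olšák identities maps the powers of a `d`-clique onto a
`2d`-clique of colours.
-/

set_option autoImplicit false

namespace Pool.Agent.Results.MP_6ab439_lc.OlsakModuloColourings

open Set Pool.Agent.W994.AR Pool.Agent.Q112.BP Pool.Agent.Helper67.BEA Pool.Agent.Helper67.TMI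
  Pool.Agent.Helper67.LCC

theorem result {A ι : Type} [Countable A] [Finite ι] {ar : ι → ℕ} (𝔸 : Str ι ar A)
    (hO : Oligo 𝔸) :
    -- (1) Olšák polymorphisms modulo finite colourings
    (¬ PPConstructsK3 𝔸 ↔ ∀ (J K : Type) [Finite J] [Finite K] (χ : (J → A) → K)
      (S : Set (J → A)), S.Finite → ∃ f : (Fin 6 → A) → A, PolA 𝔸 f ∧ ∀ x ∈ S, ∀ y ∈ S,
          χ (act f ![x, y, y, y, x, x]) = χ (act f ![y, x, y, x, y, x]) ∧
          χ (act f ![y, x, y, x, y, x]) = χ (act f ![y, y, x, x, x, y])) ∧
    -- (2) pseudo-Olšák polymorphisms modulo oligomorphic groups of automorphisms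
    (¬ PPConstructsK3 𝔸 → ∀ Γ : Subgroup (Equiv.Perm A), Oligomorphic Γ → Γ ≤ autGroup 𝔸 →
      ∃ (f : (Fin 6 → A) → A) (α β γ : A → A), PolA 𝔸 f ∧
        InClosureOf Γ α ∧ InClosureOf Γ β ∧ InClosureOf Γ γ ∧ ∀ x y : A,
          α (f ![x, y, y, y, x, x]) = β (f ![y, x, y, x, y, x]) ∧
          β (f ![y, x, y, x, y, x]) = γ (f ![y, y, x, x, x, y])) ∧
    -- (3) promise templates without Olšák polymorphism
    (∀ {J τ D C : Type} {arτ : τ → ℕ} [Finite J] [Finite D] [Finite C] (𝔻 : Str τ arτ D)
      (𝕋 : Str τ arτ C), (∀ t : (Fin 6 → D) → C, PromisePol 𝔻 𝕋 t → ¬ IsOlsak t) →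
      ∀ ℙ : Str τ arτ (J → A), (∀ i, PPDefPow 𝔸 (ℙ i)) →
        (∃ e, Hom 𝔻 ℙ e) → (∃ h, Hom ℙ 𝕋 h) → PPConstructsK3 𝔸) ∧
    -- (4) hypergraphs with a finite colouring
    (∀ {J K : Type} [Finite J] [Finite K] (r : ℕ), 3 ≤ r →
      ∀ R : Set (Fin r → J → A), PPDefPow 𝔸 R → ∀ a b : J → A,
      (∀ s : Fin r → Bool, (∃ i j, s i ≠ s j) → (fun i => if s i then b else a) ∈ R) →
      ∀ χ : (J → A) → K, (∀ v ∈ R, ∃ i j, χ (v i) ≠ χ (v j)) → PPConstructsK3 𝔸) ∧
    -- (5) graphs with a `d`-clique and a homomorphism to a finite graph without `2d`-clique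
    (∀ {J T : Type} [Finite J] [Finite T] (d : ℕ), 3 ≤ d →
      ∀ R : Set (Fin 2 → J → A), PPDefPow 𝔸 R →
      ∀ e : Fin d → J → A, (∀ i j, i ≠ j → ![e i, e j] ∈ R) →
      ∀ (adj : T → T → Prop) (h : (J → A) → T), (∀ u v, ![u, v] ∈ R → adj (h u) (h v)) →
      (¬ ∃ c : Fin (2 * d) → T, ∀ i j, i ≠ j → adj (c i) (c j)) → PPConstructsK3 𝔸) := by
  have hcol : ¬ PPConstructsK3 𝔸 → ∀ (J K : Type) [Finite J] [Finite K] (χ : (J → A) → K)
      (S : Set (J → A)), S.Finite → ∃ f : (Fin 6 → A) → A, PolA 𝔸 f ∧ ∀ x ∈ S, ∀ y ∈ S,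
          χ (act f (form 0 x y)) = χ (act f (form 1 x y)) ∧
          χ (act f (form 1 x y)) = χ (act f (form 2 x y)) := by
    intro hK J K _ _ χ S hS
    by_contra hno
    obtain ⟨S', hS', hJ⟩ := hasJ_of_colouring χ hS (fun f hf h => hno ⟨f, hf, h⟩)
    exact hK (hJ.k3 hO hS')
  refine ⟨⟨?_, ?_⟩, ?_, ?_, ?_, ?_⟩
  · intro hK J K _ _ χ S hS
    obtain ⟨f, hf, h⟩ := hcol hK J K χ S hS
    refine ⟨f, hf, fun x hx y hy => ?_⟩
    have h1 := h x hx y hy
    simp only [form_zero, form_one, form_two] at h1
    exact h1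
  · intro h hK
    obtain ⟨n, χ, S, hS, hno⟩ := PPConstructsK3.no_olsak hK
    obtain ⟨f, hf, hf'⟩ := h (Fin n) (Fin 3) χ S hS
    refine hno f hf (fun x hx y hy => ?_)
    have h1 := hf' x hx y hy
    simp only [form_zero, form_one, form_two]
    exact h1
  · intro hK Γ hΓ hΓA
    obtain ⟨f, α, hf, hα, h⟩ := pseudo_olsak hΓ hΓA (hcol hK)
    refine ⟨f, α 0, α 1, α 2, hf, hα 0, hα 1, hα 2, fun x y => ?_⟩
    have h1 := h x y 1
    have h2 := h x y 2
    simp only [form_zero, form_one, form_two] at h1 h2
    exact ⟨h1.symm, h1.trans h2.symm⟩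
  · rintro J τ D C arτ _ _ _ 𝔻 𝕋 hno ℙ hℙ ⟨e, he⟩ ⟨h, hh⟩
    obtain ⟨S', hS', hJ⟩ := hasJ_of_olsak hℙ he hh hno
    exact hJ.k3 hO hS'
  · intro J K _ _ r hr R hR a b hab χ hχ
    obtain ⟨S', hS', hJ⟩ := hasJ_of_hypergraph hr hR hab χ hχ
    exact hJ.k3 hO hS'
  · intro J T _ _ d hd R hR e he adj h hh hT
    obtain ⟨S', hS', hJ⟩ := hasJ_of_graph hd hR e he adj h hh hT
    exact hJ.k3 hO hS'

end Pool.Agent.Results.MP_6ab439_lc.OlsakModuloColourings
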