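import Pool.Agent.Helper67.TMI.Olsak

/-!
# Minor conditions of infinite templates and the hardness criterion for promise problems

`𝔸` is an arbitrary relational structure, with any domain and any signature.

(1) There is a minor-preserving map from the polymorphisms of `𝔸` to projections if and only if all
finite minor conditions (height 1 conditions) which hold in the polymorphisms are trivial, and if
and only if the polymorphisms pass the chain criterion known from promise problems: each polymorphism
`f` gets a set `E f` of at most `B` of its variables such that along each chain of `ℓ` minors, with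
maps injective on these sets, for some `i < j` a variable selected for the `i`-th function is mapped
to a variable selected for the `j`-th.
(2) Olšák's theorem up to finite colourings: if the polymorphisms of `𝔸` satisfy some non-trivial
finite minor condition, then for all colourings `χ` of a power of the domain with finitely many
colours and all finite sets `S` there is a polymorphism `f` with
`χ (f x y y y x x) = χ (f y x y x y x) = χ (f y y x x x y)` for all `x, y` in `S`.
(3) If `𝔸` pp-constructs a finite promise template without Olšák polymorphism, then all minor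
conditions which hold in `𝔸` are trivial.
(4) So are they if a relation of arity `r ≥ 3` on a power, pp-definable in `𝔸`, contains all
non-constant tuples over two elements and has a finite colouring without monochromatic tuples.
(5) So are they if a graph on a power, pp-definable in `𝔸`, contains a `d`-clique, `d ≥ 3`, and has
a homomorphism to a finite graph without `2d`-clique.

Proof of (1).  For a finite minor condition take iterated compositions of the functions involved,
with very many blocks of factors.  Replace the factors of a block by minors, block after block; the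
blocks can be chosen such that the maps are injective on the selected sets.  The Hales-Jewett theorem
makes the positions of the variable which is selected twice independent of one of the factors, and
reading off its coordinate in this factor satisfies the condition.  Proof of (2).  Otherwise every
polymorphism gives a colouring of a cube such that no three points which differ everywhere (not all
equal in each coordinate) have the same colour.  Select the domain of a small partial assignment
whose extensions have few colours; two such assignments with the same set of colours overlap, by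
Tucker's lemma.
-/

set_option autoImplicit false

namespace Pool.Agent.Results.MP_6ab439_lc.TrivialMinorIdentities

open Set Pool.Agent.W994.AR Pool.Agent.Q112.BP Pool.Agent.Helper67.BEA Pool.Agent.Helper67.TMI

theorem result :
    -- (1) minor conditions, minor-preserving maps and the chain criterion
    (∀ {A ι : Type} {ar : ι → ℕ} (𝔸 : Str ι ar A),
      (TrivialMinors 𝔸 ↔ ∀ c : MinorCondition, c.HoldsIn 𝔸 → c.IsTrivial) ∧
      (TrivialMinors 𝔸 ↔ ∃ (B ℓ : ℕ) (E : ∀ n : ℕ, ((Fin n → A) → A) → Finset (Fin n)),
        ChainSel 𝔸 B ℓ E)) ∧
    -- (2) Olšák polymorphisms up to finite colourings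
    (∀ {A ι : Type} {ar : ι → ℕ} (𝔸 : Str ι ar A) (c : MinorCondition), c.HoldsIn 𝔸 →
      ¬ c.IsTrivial → ∀ {J K : Type} [Finite K] (χ : (J → A) → K) (S : Set (J → A)), S.Finite →
        ∃ f : (Fin 6 → A) → A, PolA 𝔸 f ∧ ∀ x ∈ S, ∀ y ∈ S,
          χ (act f ![x, y, y, y, x, x]) = χ (act f ![y, x, y, x, y, x]) ∧
          χ (act f ![y, x, y, x, y, x]) = χ (act f ![y, y, x, x, x, y])) ∧
    -- (3) promise templates without Olšák polymorphism
    (∀ {A ι : Type} {ar : ι → ℕ} (𝔸 : Str ι ar A) {J τ D C : Type} {arτ : τ → ℕ} [Finite D]
      [Finite C] (𝔻 : Str τ arτ D) (𝕋 : Str τ arτ C),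
      (∀ t : (Fin 6 → D) → C, PromisePol 𝔻 𝕋 t → ¬ IsOlsak t) →
      ∀ ℙ : Str τ arτ (J → A), (∀ i, PPDefPow 𝔸 (ℙ i)) →
        (∃ e, Hom 𝔻 ℙ e) → (∃ h, Hom ℙ 𝕋 h) → TrivialMinors 𝔸) ∧
    -- (4) hypergraphs with a finite colouring
    (∀ {A ι : Type} {ar : ι → ℕ} (𝔸 : Str ι ar A) {J K : Type} [Finite K] (r : ℕ), 3 ≤ r →
      ∀ R : Set (Fin r → J → A), PPDefPow 𝔸 R → ∀ a b : J → A,
      (∀ s : Fin r → Bool, (∃ i j, s i ≠ s j) → (fun i => if s i then b else a) ∈ R) →
      ∀ χ : (J → A) → K, (∀ v ∈ R, ∃ i j, χ (v i) ≠ χ (v j)) → TrivialMinors 𝔸) ∧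
    -- (5) graphs with a `d`-clique and a homomorphism to a finite graph without `2d`-clique
    (∀ {A ι : Type} {ar : ι → ℕ} (𝔸 : Str ι ar A) {J T : Type} [Finite T] (d : ℕ), 3 ≤ d →
      ∀ R : Set (Fin 2 → J → A), PPDefPow 𝔸 R →
      ∀ e : Fin d → J → A, (∀ i j, i ≠ j → ![e i, e j] ∈ R) →
      ∀ (adj : T → T → Prop) (h : (J → A) → T), (∀ u v, ![u, v] ∈ R → adj (h u) (h v)) →
      (¬ ∃ c : Fin (2 * d) → T, ∀ i j, i ≠ j → adj (c i) (c j)) → TrivialMinors 𝔸) := by
  refine ⟨?_, ?_, ?_, ?_, ?_⟩
  · intro A ι ar 𝔸
    refine ⟨trivialMinors_iff, ?_, ?_⟩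
    · intro h
      obtain ⟨E, hE, -⟩ := h.chainSel
      exact ⟨1, 1, E, hE⟩
    · rintro ⟨B, ℓ, E, hE⟩
      exact hE.trivialMinors
  · intro A ι ar 𝔸 c hc hc' J K _ χ S hS
    by_contra hno
    refine hc' (trivialMinors_iff.1 (trivialMinors_of_colouring χ hS ?_) c hc)
    intro f hf hcol
    refine hno ⟨f, hf, fun x hx y hy => ?_⟩
    have h1 := hcol x hx y hy
    simp only [form_zero, form_one, form_two] at h1
    exact h1
  · intro A ι ar 𝔸 J τ D C arτ _ _ 𝔻 𝕋 hno ℙ hℙ ⟨e, he⟩ ⟨h, hh⟩
    exact trivialMinors_of_promise hℙ he hh hno
  · intro A ι ar 𝔸 J K _ r hr R hR a b hab χ hχ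
    exact trivialMinors_of_hypergraph hr hR hab χ hχ
  · intro A ι ar 𝔸 J T _ d hd R hR e he adj h hh hT
    exact trivialMinors_of_graph hd hR e he adj h hh hT

end Pool.Agent.Results.MP_6ab439_lc.TrivialMinorIdentities
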