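import Pool.Agent.Helper67.BEA.OneInR
import Pool.Agent.Helper67.BEA.Conv
import Pool.Graph.R_pool_sql_team_seeded_3997aac3.Q112.BP.Crit

/-!
# Bounded selections of variables and unbounded essential arity in omega-categorical templates

`𝔸` is a countable omega-categorical structure with finitely many relations, for instance a reduct
of a homogeneous structure in a finite signature.

(1) `𝔸` pp-constructs `K_3` if and only if its polymorphisms have a bounded local selection of
variables: each polymorphism `f` gets a nonempty set `E f` of at most `B` of its variables, which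
depends only on the values of `f` on a fixed finite set, such that the variables selected in a minor
of `f` are images of variables selected in `f`.
(2) If `𝔸` is a model-complete core which does not pp-construct `K_3`, then for any two tuples `a`,
`b` of elements and every function `c` on tuples with `c a ≠ c b` there are polymorphisms `f` of
arbitrarily large arity which fix `a` and `b` such that `c (f x)`, for `x` a tuple with entries `a`
and `b`, depends on all the variables.  (Take for `c` the identity if `a ≠ b`.)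
(3) If `𝔸` pp-constructs a promise template `(𝔻, 𝕋)` with `𝔻` finite, of bounded essential arity and
without constant homomorphism from `𝔻` to `𝕋`, then it pp-constructs `K_3`.  In particular this
holds if there are homomorphisms from `𝔻` to `𝔸` and from `𝔸` to `𝕋`.
(4) Let `r ≥ 3` and let `R` be a relation of arity `r` on a power of the domain, primitive positive
definable in `𝔸`, such that the tuples with one entry `b` and `r - 1` entries `a` are in `R`.  If
there is a function `h` on the power with finitely many values in an ordered abelian group such that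
`h x_1 + ... + h x_r = t` on `R`, and `t` is not of the form `r • g`, then `𝔸` pp-constructs `K_3`.

Proof of (1).  Precompose `E` with an endomorphism such that the largest size of a selected set is
also attained after precomposition with any further endomorphism.  For a polymorphism `g` let
`w x = g (x, ..., x)` and choose `m`, depending only on `w` on a finite set, such that the set
selected for `m (w x_1, ..., w x_n)` has this largest size.  It is contained in the projection of
the set selected for the composition of `m` with `g` in all variables, so this projection is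
injective; hence each variable of `m` in this set selects exactly one variable of `g`.
-/

set_option autoImplicit false

namespace Pool.Agent.Results.MP_6ab439_lc.UnboundedEssentialArity

open Set Pool.Agent.W994.AR Pool.Agent.Q112.BP Pool.Agent.Helper67.BEA

theorem result :
    -- (1) `K_3` and bounded selections
    (∀ {A ι : Type} [Countable A] [Finite ι] {ar : ι → ℕ} (𝔸 : Str ι ar A), Oligo 𝔸 →
      (PPConstructsK3 𝔸 ↔
        ∃ (S : Set A) (B : ℕ) (E : ∀ {κ : Type}, ((κ → A) → A) → Set κ), S.Finite ∧ S.Nonempty ∧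
          Selection 𝔸 S B @E)) ∧
    -- (2) unbounded essential arity in model-complete cores
    (∀ {A ι : Type} [Countable A] [Finite ι] {ar : ι → ℕ} (𝔸 : Str ι ar A), Oligo 𝔸 →
      MCCore 𝔸 → ¬ PPConstructsK3 𝔸 →
      ∀ (k : ℕ) (X : Type) (a b : Fin k → A) (c : (Fin k → A) → X), c a ≠ c b → ∀ N : ℕ,
        ∃ (n : ℕ) (f : (Fin n → A) → A), N ≤ n ∧ PolA 𝔸 f ∧ (∀ j, f (fun _ => a j) = a j) ∧
          (∀ j, f (fun _ => b j) = b j) ∧ ess (fun x => c (onPair f a b x)) = univ) ∧
    -- (3) promise templates of bounded essential arity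
    (∀ {A ι : Type} [Countable A] [Finite ι] {ar : ι → ℕ} (𝔸 : Str ι ar A), Oligo 𝔸 →
      ∀ {τ D C : Type} {arτ : τ → ℕ} [Finite D] [Nonempty D] (𝔻 : Str τ arτ D) (𝕋 : Str τ arτ C),
      (∀ c : C, ¬ Hom 𝔻 𝕋 (fun _ => c)) → (∃ B, EssArityLE 𝔻 𝕋 B) →
      ∀ (k : ℕ) (ℙ : Str τ arτ (Fin k → A)), (∀ i, PPDefPow 𝔸 (ℙ i)) →
        (∃ e, Hom 𝔻 ℙ e) → (∃ h, Hom ℙ 𝕋 h) → PPConstructsK3 𝔸) ∧
    (∀ {A ι : Type} [Countable A] [Finite ι] {ar : ι → ℕ} (𝔸 : Str ι ar A), Oligo 𝔸 →
      ∀ {D C : Type} [Finite D] [Nonempty D] (𝔻 : Str ι ar D) (𝕋 : Str ι ar C),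
      (∀ c : C, ¬ Hom 𝔻 𝕋 (fun _ => c)) → (∃ B, EssArityLE 𝔻 𝕋 B) →
        (∃ e, Hom 𝔻 𝔸 e) → (∃ h, Hom 𝔸 𝕋 h) → PPConstructsK3 𝔸) ∧
    -- (4) between `1-in-r` and a linear equation with finitely many values
    (∀ {A ι : Type} [Countable A] [Finite ι] {ar : ι → ℕ} (𝔸 : Str ι ar A), Oligo 𝔸 →
      ∀ (k r : ℕ), 3 ≤ r → ∀ R : Set (Fin r → Fin k → A), PPDefPow 𝔸 R →
      ∀ a b : Fin k → A, (∀ i : Fin r, (fun j => if j = i then b else a) ∈ R) →
      ∀ {G : Type} [AddCommGroup G] [LinearOrder G] [IsOrderedAddMonoid G] (t : G)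
        (h : (Fin k → A) → G), (range h).Finite → (∀ v ∈ R, ∑ j, h (v j) = t) →
        (∀ g : G, r • g ≠ t) → PPConstructsK3 𝔸) ∧
    -- reducts of homogeneous structures satisfy the hypothesis on the orbits
    (∀ {A σ ι : Type} [Finite σ] {arB : σ → ℕ} {ar : ι → ℕ} (𝔹 : Str σ arB A), Homogeneous 𝔹 →
      ∀ 𝔸 : Str ι ar A, (∀ i, Invar (autGroup 𝔹) (𝔸 i)) → Oligo 𝔸) := by
  refine ⟨?_, ?_, ?_, ?_, ?_, ?_⟩
  · intro A ι _ _ ar 𝔸 hO
    constructor
    · intro h
      obtain ⟨S, E, h1, h2, h3⟩ := selection_of_k3 h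
      exact ⟨S, 1, E, h1, h2, h3⟩
    · rintro ⟨S, B, E, h1, h2, h3⟩
      exact h3.k3 hO h1 h2
  · intro A ι _ _ ar 𝔸 hO hcore hno k X a b c hc N
    exact unbounded hO hcore hno a b c hc N
  · intro A ι _ _ ar 𝔸 hO τ D C arτ _ _ 𝔻 𝕋 hconst ⟨B, hB⟩ k ℙ hℙ ⟨e, he⟩ ⟨h, hh⟩
    exact k3_of_promise hO hℙ he hh hconst hB
  · intro A ι _ _ ar 𝔸 hO D C _ _ 𝔻 𝕋 hconst ⟨B, hB⟩ ⟨e, he⟩ ⟨h, hh⟩
    refine k3_of_promise (J := Fin 1) (ℙ := fun i => {v | (fun a => v a 0) ∈ 𝔸 i}) hO
      (fun i => ?_) (e := fun d _ => e d) (fun i v hv => he i v hv) (h := fun x => h (x 0))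
      (fun i v hv => hh i _ hv) hconst hB
    refine ⟨0, [Atom.rel i (fun j => Sum.inl (j, 0))], fun v => ?_⟩
    constructor
    · intro hv
      refine ⟨fun q => q.elim0, fun φ hφ => ?_⟩
      rw [List.mem_singleton] at hφ
      subst hφ
      exact hv
    · rintro ⟨u, hu⟩
      exact hu _ (List.mem_singleton.2 rfl)
  · intro A ι _ _ ar 𝔸 hO k r hr R hR a b hab G _ _ _ t h hfin hsum ht
    exact k3_of_oneIn hO hr hR hab hfin hsum ht
  · intro A σ ι _ arB ar 𝔹 hB 𝔸 h
    exact oligo_of_homogeneous 𝔹 hB 𝔸 h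

end Pool.Agent.Results.MP_6ab439_lc.UnboundedEssentialArity
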